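import Mathlib

/-!
# Exponential IP sets of type I: partitions into three or more cells

For every `r ≥ 3` there is a partition of `ℕ` into `r` nonempty cells none of which is an
exponential IP set of type I.  In fact no cell contains `b` and `a ^ b` with `2 ≤ a < b`.
-/

namespace Pool.Agent.Results.MP_952e1b_co.TypeOneManyCells

/-- The sets `FE^I_n(X)` for `X = {x 0 < x 1 < x 2 < …}`. -/
def FEI (x : ℕ → ℕ) : ℕ → Set ℕ
  | 0 => {x 0}
  | n + 1 => {z | ∃ y ∈ FEI x n, z = y ^ x (n + 1)} ∪ FEI x n ∪ {x (n + 1)}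

/-- `C` is an exponential IP set of type I: for some infinite `X = {x 0 < x 1 < …}` the union
`FE^I(X)` of the sets `FE^I_n(X)` is contained in `C`. -/
def IsExpIPOne (C : Set ℕ) : Prop :=
  ∃ x : ℕ → ℕ, StrictMono x ∧ (⋃ n, FEI x n) ⊆ C

/-- Number of times `Nat.log 2` has to be applied to reach a number `≤ 1`. -/
def lev (n : ℕ) : ℕ :=
  if h : n ≤ 1 then 0 else lev (Nat.log 2 n) + 1
termination_by n
decreasing_by exact Nat.log_lt_self 2 (by omega)

lemma lev_of_le {n : ℕ} (h : n ≤ 1) : lev n = 0 := by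
  rw [lev, dif_pos h]

lemma lev_of_two_le {n : ℕ} (h : 2 ≤ n) : lev n = lev (Nat.log 2 n) + 1 := by
  rw [lev, dif_neg (by omega)]

lemma lev_mono : ∀ m n : ℕ, n ≤ m → lev n ≤ lev m := by
  intro m
  induction m using Nat.strong_induction_on with
  | _ m ih =>
    intro n hnm
    rcases Nat.lt_or_ge n 2 with hn | hn
    · rw [lev_of_le (by omega)]; exact Nat.zero_le _
    · rw [lev_of_two_le hn, lev_of_two_le (by omega : 2 ≤ m)]
      have h1 : Nat.log 2 m < m := Nat.log_lt_self 2 (by omega)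
      have h2 : Nat.log 2 n ≤ Nat.log 2 m := Nat.log_mono_right hnm
      have := ih _ h1 _ h2
      omega

lemma lev_two_pow {n : ℕ} (h : 1 ≤ n) : lev (2 ^ n) = lev n + 1 := by
  have h2 : 2 ≤ 2 ^ n := by
    calc 2 = 2 ^ 1 := by norm_num
      _ ≤ 2 ^ n := Nat.pow_le_pow_right (by norm_num) h
  rw [lev_of_two_le h2, Nat.log_pow (by norm_num)]

lemma lev_pow_bounds {a b : ℕ} (ha : 2 ≤ a) (hab : a < b) :
    lev b + 1 ≤ lev (a ^ b) ∧ lev (a ^ b) ≤ lev b + 2 := by
  constructor
  · rw [← lev_two_pow (by omega : 1 ≤ b)]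
    exact lev_mono _ _ (Nat.pow_le_pow_left ha b)
  · have h1 : a ^ b ≤ 2 ^ (2 ^ b) := by
      have hb : b ≤ 2 ^ (b / 2 + 1) := by
        have := Nat.lt_two_pow_self (n := b / 2)
        rw [pow_succ]
        omega
      calc a ^ b ≤ b ^ b := Nat.pow_le_pow_left hab.le b
        _ ≤ (2 ^ (b / 2 + 1)) ^ b := Nat.pow_le_pow_left hb b
        _ = 2 ^ ((b / 2 + 1) * b) := by rw [← pow_mul]
        _ ≤ 2 ^ (2 ^ b) := by
          apply Nat.pow_le_pow_right (by norm_num)
          -- `(b / 2 + 1) * b ≤ 2 ^ b` for `b ≥ 3`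
          have key : ∀ k : ℕ, 3 ≤ k → (k / 2 + 1) * k ≤ 2 ^ k := by
            have aux : ∀ k : ℕ, 3 ≤ k → (k + 2) * k ≤ 2 * 2 ^ k := by
              intro k hk
              induction k, hk using Nat.le_induction with
              | base => norm_num
              | succ k hk ih =>
                have : 2 ^ (k + 1) = 2 * 2 ^ k := by ring
                nlinarith
            intro k hk
            have h := aux k hk
            have h2 : 2 * (k / 2 + 1) ≤ k + 2 := by omega
            nlinarith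
          exact key b (by omega)
    have h2 : lev (2 ^ (2 ^ b)) = lev b + 2 := by
      rw [lev_two_pow (Nat.one_le_two_pow), lev_two_pow (by omega : 1 ≤ b)]
    rw [← h2]
    exact lev_mono _ _ h1

/-- The colouring: the numbers below `r - 3` are singled out, all others are coloured by their
level modulo `3`. -/
def col (r : ℕ) (hr : 3 ≤ r) (n : ℕ) : Fin r :=
  if h : n < r - 3 then ⟨n + 3, by omega⟩ else ⟨lev n % 3, by omega⟩

lemma col_ne {r : ℕ} (hr : 3 ≤ r) {a b : ℕ} (ha : 2 ≤ a) (hab : a < b) :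
    col r hr b ≠ col r hr (a ^ b) := by
  have hlt : b < a ^ b := Nat.lt_pow_self (by omega)
  have hb := lev_pow_bounds ha hab
  intro h
  unfold col at h
  split_ifs at h with h1 h2 h2
  · simp only [Fin.mk.injEq] at h; omega
  · simp only [Fin.mk.injEq] at h; omega
  · omega
  · simp only [Fin.mk.injEq] at h; omega

lemma col_surjective {r : ℕ} (hr : 3 ≤ r) : Function.Surjective (col r hr) := by
  intro i
  by_cases hi : 3 ≤ (i : ℕ)
  · refine ⟨(i : ℕ) - 3, ?_⟩
    have hi' := i.2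
    unfold col
    rw [dif_pos (by omega)]
    ext
    simp only
    omega
  · -- the three numbers `r`, `2 ^ r`, `2 ^ 2 ^ r` have consecutive levels
    have e1 : lev (2 ^ r) = lev r + 1 := lev_two_pow (by omega)
    have e2 : lev (2 ^ 2 ^ r) = lev r + 2 := by
      rw [lev_two_pow (Nat.one_le_two_pow), e1]
    have g1 : r < 2 ^ r := Nat.lt_two_pow_self
    have g2 : 2 ^ r < 2 ^ 2 ^ r := Nat.lt_two_pow_self
    have h : lev r % 3 = i ∨ (lev r + 1) % 3 = i ∨ (lev r + 2) % 3 = i := by omega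
    rcases h with h | h | h
    · refine ⟨r, ?_⟩
      unfold col
      rw [dif_neg (by omega)]
      ext
      exact h
    · refine ⟨2 ^ r, ?_⟩
      unfold col
      rw [dif_neg (by omega)]
      ext
      simp only
      rw [e1]
      exact h
    · refine ⟨2 ^ 2 ^ r, ?_⟩
      unfold col
      rw [dif_neg (by omega)]
      ext
      simp only
      rw [e2]
      exact h

lemma mem_FEI_self (x : ℕ → ℕ) : ∀ n, x n ∈ FEI x n
  | 0 => rfl
  | _ + 1 => Or.inr rfl

/-- For every `r ≥ 3` there is a partition of `ℕ` into `r` nonempty cells such that no cell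
contains `b` and `a ^ b` for `2 ≤ a < b`, and no cell is an exponential IP set of type I. -/
theorem result : ∀ r : ℕ, 3 ≤ r → ∃ f : ℕ → Fin r, Function.Surjective f ∧
    (∀ a b : ℕ, 2 ≤ a → a < b → f b ≠ f (a ^ b)) ∧ ∀ i, ¬ IsExpIPOne (f ⁻¹' {i}) := by
  intro r hr
  refine ⟨col r hr, col_surjective hr, fun a b ha hab => col_ne hr ha hab, ?_⟩
  rintro i ⟨x, hx, hsub⟩
  have h3 : x 3 ∈ ⋃ n, FEI x n := Set.mem_iUnion.2 ⟨3, mem_FEI_self x 3⟩
  have h23 : x 2 ^ x 3 ∈ ⋃ n, FEI x n :=
    Set.mem_iUnion.2 ⟨3, Or.inl (Or.inl ⟨x 2, mem_FEI_self x 2, rfl⟩)⟩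
  have hlt : x 2 < x 3 := hx (by norm_num)
  have h2 : 2 ≤ x 2 := hx.id_le 2
  have e3 : col r hr (x 3) = i := hsub h3
  have e23 : col r hr (x 2 ^ x 3) = i := hsub h23
  exact col_ne hr h2 hlt (e3.trans e23.symm)

end Pool.Agent.Results.MP_952e1b_co.TypeOneManyCells
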