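import Pool.Agent.Q16.EI.CaseB

/-!
# Exponential IP sets of type I: a partition into two cells

There is a partition of `ℕ` into two cells neither of which is an exponential IP set of type I.
-/

set_option autoImplicit false

namespace Pool.Agent.Results.MP_952e1b_co.TypeOneTwoCells

/-- The sets `FE^I_n(X)` for `X = {x 0 < x 1 < x 2 < …}`. -/
def FEI (x : ℕ → ℕ) : ℕ → Set ℕ
  | 0 => {x 0}
  | n + 1 => {z | ∃ y ∈ FEI x n, z = y ^ x (n + 1)} ∪ FEI x n ∪ {x (n + 1)}

/-- `C` is an exponential IP set of type I: for some infinite `X = {x 0 < x 1 < …}` the union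
`FE^I(X)` of the sets `FE^I_n(X)` is contained in `C`. -/
def IsExpIPOne (C : Set ℕ) : Prop :=
  ∃ x : ℕ → ℕ, StrictMono x ∧ (⋃ n, FEI x n) ⊆ C

lemma mem_FEI (x : ℕ → ℕ) (i : ℕ) : ∀ (n : ℕ), i ≤ n → ∀ F : Finset ℕ,
    (∀ j ∈ F, i < j ∧ j ≤ n) → x i ^ ∏ j ∈ F, x j ∈ FEI x n := by
  intro n
  induction n with
  | zero =>
    intro hi F hF
    have h0 : i = 0 := by omega
    have hF0 : F = ∅ := by
      rw [Finset.eq_empty_iff_forall_notMem]
      intro j hj
      have := hF j hj
      omega
    subst h0
    subst hF0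
    show x 0 ^ ∏ j ∈ (∅ : Finset ℕ), x j ∈ ({x 0} : Set ℕ)
    simp
  | succ n ih =>
    intro hi F hF
    by_cases h1 : n + 1 ∈ F
    · have hin : i ≤ n := by have := hF _ h1; omega
      have h2 := ih hin (F.erase (n + 1)) (by
        intro j hj
        rw [Finset.mem_erase] at hj
        have := hF j hj.2
        omega)
      refine Or.inl (Or.inl ⟨_, h2, ?_⟩)
      rw [← pow_mul, Finset.prod_erase_mul F x h1]
    · by_cases h3 : i = n + 1
      · have hF0 : F = ∅ := by
          rw [Finset.eq_empty_iff_forall_notMem]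
          intro j hj
          have := hF j hj
          omega
        subst hF0
        refine Or.inr ?_
        rw [h3]
        simp
      · refine Or.inl (Or.inr (ih (by omega) F ?_))
        intro j hj
        have := hF j hj
        have : j ≠ n + 1 := by
          rintro rfl
          exact h1 hj
        omega

open Pool.Agent.Q16.EI in
lemma mono_of {x : ℕ → ℕ} {χ : Bool} (hx : StrictMono x)
    (h : (⋃ n, FEI x n) ⊆ {z | c z = χ}) : Mono (fun i => x (i + 2)) χ := by
  refine ⟨fun a b hab => hx (by omega), fun i => ?_, fun i F hF => ?_⟩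
  · have : i + 2 ≤ x (i + 2) := hx.le_apply
    show 2 ≤ x (i + 2)
    omega
  · have h1 := mem_FEI x (i + 2) ((F.image (· + 2)).sup id + (i + 2)) (by omega)
      (F.image (· + 2)) (by
        intro j hj
        have hle := Finset.le_sup (f := id) hj
        rw [Finset.mem_image] at hj
        obtain ⟨l, hl, rfl⟩ := hj
        have := hF l hl
        simp only [id] at hle
        constructor <;> omega)
    have h2 := h (Set.mem_iUnion.2 ⟨_, h1⟩)
    have h3 : ∏ j ∈ F.image (· + 2), x j = ∏ j ∈ F, x (j + 2) :=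
      Finset.prod_image (fun a _ b _ hab => by simpa using hab)
    rw [h3] at h2
    exact h2

/-- There is a partition of `ℕ` into two cells, neither of which is an exponential IP set of
type I. -/
theorem result : ∃ A B : Set ℕ, A ∪ B = Set.univ ∧ Disjoint A B ∧
    ¬ IsExpIPOne A ∧ ¬ IsExpIPOne B := by
  refine ⟨{z | Pool.Agent.Q16.EI.c z = true}, {z | Pool.Agent.Q16.EI.c z = false},
    ?_, ?_, ?_, ?_⟩
  · ext z
    cases h : Pool.Agent.Q16.EI.c z <;> simp [h]
  · rw [Set.disjoint_left]
    intro z h1 h2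
    have h1' : Pool.Agent.Q16.EI.c z = true := h1
    have h2' : Pool.Agent.Q16.EI.c z = false := h2
    rw [h1'] at h2'
    simp at h2'
  · rintro ⟨x, hx, h⟩
    exact Pool.Agent.Q16.EI.not_mono (mono_of hx h)
  · rintro ⟨x, hx, h⟩
    exact Pool.Agent.Q16.EI.not_mono (mono_of hx h)

end Pool.Agent.Results.MP_952e1b_co.TypeOneTwoCells
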