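import Pool.Agent.Q120.EII.Fam

/-!
# Exponential IP sets of type II in every finite partition

In every finite partition of `ℕ` some cell is an exponential IP set of type II.
-/

namespace Pool.Agent.Results.MP_952e1b_co.TypeTwoHolds

open Q120.EII

/-- The sets `FE^II_n(X)` for `X = {x 0 < x 1 < x 2 < …}`. -/
def FEII (x : ℕ → ℕ) : ℕ → Set ℕ
  | 0 => {x 0}
  | n + 1 => {z | ∃ y ∈ FEII x n, z = x (n + 1) ^ y} ∪ FEII x n ∪ {x (n + 1)}

/-- `C` is an exponential IP set of type II: for some infinite `X = {x 0 < x 1 < …}` the union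
`FE^II(X)` of the sets `FE^II_n(X)` is contained in `C`. -/
def IsExpIPTwo (C : Set ℕ) : Prop :=
  ∃ x : ℕ → ℕ, StrictMono x ∧ (⋃ n, FEII x n) ⊆ C

/-- adding the element `w` to the set `M` of exponents -/
def nxt (M : Finset ℕ) (w : ℕ) : Finset ℕ := M ∪ {w} ∪ M.image (fun e => w * 2 ^ e)

/-- the points all of whose shifts by the exponents in `M` stay in `A` -/
def Bs (A : Set ℕ) (M : Finset ℕ) : Set ℕ := {v | v ∈ A ∧ ∀ e ∈ M, 2 ^ e * v ∈ A}

lemma step {G : Set (Set ℕ)} (hG : Minimal (fun G => G ∈ {G | Good G}) G) {A : Set ℕ}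
    (M : Finset ℕ) (hM : Bs A M ∈ G) (N : ℕ) :
    ∃ w, N < w ∧ w ∈ A ∧ (∀ e ∈ M, w * 2 ^ e ∈ A) ∧ Bs A (nxt M w) ∈ G := by
  have hg : Good G := hG.1
  have hB : Bs A M ∩ {v | N < v} ∈ G := by
    have h1 : Bs A M ⊆ (Bs A M ∩ {v | N < v}) ∪ {v | v ≤ N} := by
      intro v hv
      by_cases h : N < v
      · exact Or.inl ⟨hv, h⟩
      · exact Or.inr (not_lt.1 h)
    rcases hg.reg _ _ (hg.up _ _ h1 hM) with h2 | h2
    · exact h2
    · exact absurd (hg.ip _ h2) (not_IPr_le N)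
  obtain ⟨a, ha⟩ := hg.ip _ hB
  obtain ⟨w, hw, hret⟩ := ret hG hB (insert 1 (M.image fun e => 2 ^ e)) a
  have hwB := (ha hw).1
  refine ⟨w, hwB.2, hwB.1.1, fun e he => ?_, ?_⟩
  · rw [mul_comm]; exact hwB.1.2 e he
  · refine hg.up _ _ ?_ hret
    rintro v ⟨hv, hc⟩
    refine ⟨hv.1.1, ?_⟩
    intro e he
    simp only [nxt, Finset.mem_union, Finset.mem_singleton, Finset.mem_image] at he
    rcases he with (he | he) | ⟨e', he', rfl⟩
    · exact hv.1.2 e he
    · subst he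
      have := hc 1 (by simp)
      rw [one_mul] at this
      exact this.1.1
    · have := hc (2 ^ e') (by simp only [Finset.mem_insert, Finset.mem_image]; exact Or.inr ⟨e', he', rfl⟩)
      rw [mul_comm (2 ^ e') w] at this
      exact this.1.1

lemma main {G : Set (Set ℕ)} (hG : Minimal (fun G => G ∈ {G | Good G}) G) {A : Set ℕ}
    (hA : A ∈ G) : ∃ (w : ℕ → ℕ) (M : ℕ → Finset ℕ), StrictMono w ∧ M 0 = {w 0} ∧
      (∀ n, M (n + 1) = nxt (M n) (w (n + 1))) ∧ ∀ n, ∀ e ∈ M n, e ∈ A := by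
  classical
  let P : Finset ℕ × ℕ → Prop := fun p => (∀ e ∈ p.1, e ∈ A) ∧ Bs A p.1 ∈ G
  have hstep : ∀ p : {p // P p}, ∃ q : {p // P p},
      q.1.1 = nxt p.1.1 q.1.2 ∧ p.1.2 < q.1.2 := by
    rintro ⟨⟨M, w0⟩, h1, h2⟩
    obtain ⟨w, hw1, hw2, hw3, hw4⟩ := step hG M h2 w0
    refine ⟨⟨(nxt M w, w), ?_, hw4⟩, rfl, hw1⟩
    intro e he
    simp only [nxt, Finset.mem_union, Finset.mem_singleton, Finset.mem_image] at he
    rcases he with (he | he) | ⟨e', he', rfl⟩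
    · exact h1 e he
    · subst he; exact hw2
    · exact hw3 e' he'
  choose g hg1 hg2 using hstep
  have hp0 : P (∅, 0) := by
    refine ⟨by simp, ?_⟩
    have : Bs A ∅ = A := by
      ext v; simp [Bs]
    show Bs A ∅ ∈ G
    rw [this]; exact hA
  let f : ℕ → {p // P p} := fun n => Nat.rec (g ⟨(∅, 0), hp0⟩) (fun _ p => g p) n
  refine ⟨fun n => (f n).1.2, fun n => (f n).1.1, ?_, ?_, ?_, ?_⟩
  · exact strictMono_nat_of_lt_succ fun n => hg2 (f n)
  · have := hg1 ⟨(∅, 0), hp0⟩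
    show (g ⟨(∅, 0), hp0⟩).1.1 = {(g ⟨(∅, 0), hp0⟩).1.2}
    rw [this]
    simp [nxt]
  · intro n
    exact hg1 (f n)
  · intro n e he
    exact (f n).2.1 e he

/-- **Type II holds for all finite partitions.** For every `r` and every colouring of `ℕ` with `r`
colours some colour class is an exponential IP set of type II; moreover the infinite set `X` can be
taken to consist of powers of `2`. -/
theorem result : ∀ (r : ℕ) (f : ℕ → Fin r),
    (∃ i, IsExpIPTwo (f ⁻¹' {i})) ∧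
    ∃ (i : Fin r) (w : ℕ → ℕ), StrictMono w ∧ (⋃ n, FEII (fun k => 2 ^ w k) n) ⊆ f ⁻¹' {i} := by
  intro r f
  have key : ∃ (i : Fin r) (w : ℕ → ℕ), StrictMono w ∧
      (⋃ n, FEII (fun k => 2 ^ w k) n) ⊆ f ⁻¹' {i} := by
    obtain ⟨G, hG⟩ := exists_minimal_good
    have hg : Good G := hG.1
    obtain ⟨i, _, hi⟩ := hg.biUnion (Finset.univ : Finset (Fin r)) (fun i => {w | f (2 ^ w) = i})
      (hg.up _ _ (fun w _ => by simp) hg.univ)
    obtain ⟨w, M, hw, hM0, hMs, hMA⟩ := main hG hi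
    refine ⟨i, w, hw, ?_⟩
    have h1 : ∀ n, FEII (fun k => 2 ^ w k) n = {z | ∃ e ∈ M n, z = 2 ^ e} := by
      intro n
      induction n with
      | zero => ext z; simp [FEII, hM0]
      | succ n ih =>
        ext z
        simp only [FEII, ih, hMs n, nxt, Set.mem_union, Set.mem_singleton_iff,
          Finset.mem_union, Finset.mem_singleton, Finset.mem_image, Set.mem_ofPred_eq]
        constructor
        · rintro ((⟨y, ⟨e, he, rfl⟩, rfl⟩ | ⟨e, he, rfl⟩) | rfl)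
          · exact ⟨w (n + 1) * 2 ^ e, Or.inr ⟨e, he, rfl⟩, by rw [pow_mul]⟩
          · exact ⟨e, Or.inl (Or.inl he), rfl⟩
          · exact ⟨w (n + 1), Or.inl (Or.inr rfl), rfl⟩
        · rintro ⟨e, (he | he) | ⟨e', he', rfl⟩, rfl⟩
          · exact Or.inl (Or.inr ⟨e, he, rfl⟩)
          · subst he; exact Or.inr rfl
          · exact Or.inl (Or.inl ⟨2 ^ e', ⟨e', he', rfl⟩, by rw [pow_mul]⟩)
    intro z hz
    obtain ⟨n, hn⟩ := Set.mem_iUnion.1 hz
    rw [h1 n] at hn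
    obtain ⟨e, he, rfl⟩ := hn
    exact hMA n e he
  refine ⟨?_, key⟩
  obtain ⟨i, w, hw, h⟩ := key
  exact ⟨i, fun k => 2 ^ w k, fun a b hab => Nat.pow_lt_pow_right (by norm_num) (hw hab), h⟩

end Pool.Agent.Results.MP_952e1b_co.TypeTwoHolds
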